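import Mathlib

open scoped Quaternion NNReal
open Filter Topology

noncomputable section

namespace Pool.Agent.Results.MP_885f98_gt.NotLocallyRigid

/-! ### Quaternionic hyperbolic space (ball model), its boundary sphere and visual metric -/

/-- The quaternionic Hermitian product `<x,y> = sum x_i * conj(y_i)` on `ℍ^m`. -/
def herm {m : ℕ} (x y : Fin m → ℍ[ℝ]) : ℍ[ℝ] := ∑ i, x i * star (y i)

/-- The squared Euclidean norm on `ℍ^m`. -/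
def nsq {m : ℕ} (x : Fin m → ℍ[ℝ]) : ℝ := ∑ i, ‖x i‖ ^ 2

/-- The ball model of quaternionic hyperbolic `m`-space: the open unit ball of `ℍ^m`. -/
def HBall (m : ℕ) : Type := {x : Fin m → ℍ[ℝ] // nsq x < 1}

/-- The distance of quaternionic hyperbolic space in the ball model:
`cosh d(x,y) = |1 - <x,y>| / sqrt ((1-|x|^2)(1-|y|^2))` (curvature between `-4` and `-1`). -/
def hdist {m : ℕ} (x y : HBall m) : ℝ :=
  Real.arcosh (‖1 - herm x.1 y.1‖ / (√(1 - nsq x.1) * √(1 - nsq y.1)))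

/-- The ideal boundary of quaternionic hyperbolic `m`-space: the unit sphere of `ℍ^m`. -/
def Bdry (m : ℕ) : Type := {x : Fin m → ℍ[ℝ] // nsq x = 1}

/-- The visual metric exp (-(ξ|η)_0) on the ideal boundary, where (ξ|η)_0 is the Gromov product
based at the centre `0` of the ball.  See `gromov_product_limit` below. -/
def vdist {m : ℕ} (ξ η : Bdry m) : ℝ := √(‖1 - herm ξ.1 η.1‖ / 2)

theorem norm_sq_q (w : ℍ[ℝ]) : ‖w‖ ^ 2 = w.re ^ 2 + w.imI ^ 2 + w.imJ ^ 2 + w.imK ^ 2 := by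
  rw [pow_two, ← Quaternion.normSq_eq_norm_mul_self, Quaternion.normSq_def']

theorem norm_add_real (t : ℝ) (w : ℍ[ℝ]) :
    ‖(t : ℍ[ℝ]) + w‖ ^ 2 = t ^ 2 + 2 * t * w.re + ‖w‖ ^ 2 := by
  rw [norm_sq_q, norm_sq_q]
  simp
  ring

theorem abs_re_le (w : ℍ[ℝ]) : |w.re| ≤ ‖w‖ := by
  rw [← Real.sqrt_sq (norm_nonneg w), ← Real.sqrt_sq_eq_abs]
  apply Real.sqrt_le_sqrt
  rw [norm_sq_q]
  nlinarith [sq_nonneg w.imI, sq_nonneg w.imJ, sq_nonneg w.imK]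

theorem norm_sub_sq_q (x y : ℍ[ℝ]) : ‖x - y‖ ^ 2 = ‖x‖ ^ 2 + ‖y‖ ^ 2 - 2 * (x * star y).re := by
  rw [norm_sq_q, norm_sq_q, norm_sq_q]
  simp
  ring

theorem re_sum {ι : Type*} (s : Finset ι) (f : ι → ℍ[ℝ]) :
    (∑ i ∈ s, f i).re = ∑ i ∈ s, (f i).re := by
  induction s using Finset.cons_induction with
  | empty => simp
  | cons a s ha ih => simp [Finset.sum_cons, ih]

theorem nsq_sub {m : ℕ} (x y : Fin m → ℍ[ℝ]) :
    nsq (fun i => x i - y i) = nsq x + nsq y - 2 * (herm x y).re := by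
  unfold nsq herm
  rw [re_sum, Finset.mul_sum, ← Finset.sum_add_distrib, ← Finset.sum_sub_distrib]
  exact Finset.sum_congr rfl fun i _ => norm_sub_sq_q _ _

theorem nsq_nonneg {m : ℕ} (x : Fin m → ℍ[ℝ]) : 0 ≤ nsq x :=
  Finset.sum_nonneg fun i _ => by positivity

theorem herm_norm_sq_le {m : ℕ} (x y : Fin m → ℍ[ℝ]) : ‖herm x y‖ ^ 2 ≤ nsq x * nsq y := by
  have h1 : ‖herm x y‖ ≤ ∑ i, ‖x i‖ * ‖y i‖ := by
    unfold herm
    refine (norm_sum_le _ _).trans ?_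
    apply Finset.sum_le_sum
    intro i _
    rw [norm_mul, Quaternion.norm_star]
  calc ‖herm x y‖ ^ 2 ≤ (∑ i, ‖x i‖ * ‖y i‖) ^ 2 := by gcongr
    _ ≤ nsq x * nsq y := Finset.sum_mul_sq_le_sq_mul_sq _ _ _

/-! ### The totally geodesic copy and the notions of the problem -/

theorem nsq_snoc {n : ℕ} (x : Fin n → ℍ[ℝ]) (q : ℍ[ℝ]) :
    nsq (Fin.snoc x q : Fin (n + 1) → ℍ[ℝ]) = nsq x + ‖q‖ ^ 2 := by
  unfold nsq
  rw [Fin.sum_univ_castSucc]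
  simp

theorem herm_snoc {n : ℕ} (x y : Fin n → ℍ[ℝ]) (p q : ℍ[ℝ]) :
    herm (Fin.snoc x p : Fin (n + 1) → ℍ[ℝ]) (Fin.snoc y q : Fin (n + 1) → ℍ[ℝ]) =
      herm x y + p * star q := by
  unfold herm
  rw [Fin.sum_univ_castSucc]
  simp

/-- The inclusion `ι : X → Y` of the boundary `X` of the totally geodesic copy
`{x_{n+1} = 0}` of `ℍH^n` into the boundary `Y` of `ℍH^{n+1}`. -/
def incl {n : ℕ} (ξ : Bdry n) : Bdry (n + 1) :=
  ⟨Fin.snoc ξ.1 0, by rw [nsq_snoc, ξ.2]; simp⟩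

/-- `f : X → Y` is a quasisymmetric embedding, where `X` carries the restriction (along `incl`)
of the visual metric of `Y`. -/
def IsQSEmbedding {n : ℕ} (f : Bdry n → Bdry (n + 1)) : Prop :=
  Function.Injective f ∧ ∃ η : ℝ≥0 ≃ₜ ℝ≥0, ∀ (x a b : Bdry n) (t : ℝ≥0),
    vdist (incl x) (incl a) ≤ t * vdist (incl x) (incl b) →
      vdist (f x) (f a) ≤ η t * vdist (f x) (f b)

/-- `g` is an isometry of `ℍH^m` (a distance preserving bijection of the ball model). -/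
def IsIsometry {m : ℕ} (g : HBall m → HBall m) : Prop :=
  Function.Bijective g ∧ ∀ z w, hdist (g z) (g w) = hdist z w

/-- `f : X → Y` is induced by `g`: the map `f` is the restriction to `X` of the continuous
extension of `g` to the ideal boundary, i.e. `g z → f ξ` as `z → ξ` in the closed ball. -/
def InducedBy {n : ℕ} (f : Bdry n → Bdry (n + 1)) (g : HBall (n + 1) → HBall (n + 1)) : Prop :=
  ∀ ξ : Bdry n, Tendsto (fun z : HBall (n + 1) => (g z).1)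
    (comap (fun z : HBall (n + 1) => z.1) (𝓝 (incl ξ).1)) (𝓝 (f ξ).1)

/-- Local quasisymmetric rigidity of `X = ∂ℍH^n` in `Y = ∂ℍH^{n+1}`. -/
def LocallyRigid (n : ℕ) : Prop :=
  ∃ ε : ℝ, 0 < ε ∧ ∀ f : Bdry n → Bdry (n + 1), IsQSEmbedding f →
    (⨆ x, vdist (f x) (incl x)) < ε → ∃ g, IsIsometry g ∧ InducedBy f g

/-! ### Basic estimates -/

theorem re_one_sub_herm {m : ℕ} (x y : Fin m → ℍ[ℝ]) (hx : nsq x ≤ 1) (hy : nsq y ≤ 1) :
    nsq (fun i => x i - y i) ≤ 2 * (1 - herm x y).re := by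
  rw [nsq_sub]
  simp
  linarith

theorem norm_lower (c t : ℝ) (w : ℍ[ℝ]) (hc : 0 ≤ c) (ht : 0 ≤ t) (hw : 0 ≤ w.re) :
    t * ‖w‖ ≤ ‖(c : ℍ[ℝ]) + t • w‖ := by
  have h : (t * ‖w‖) ^ 2 ≤ ‖(c : ℍ[ℝ]) + t • w‖ ^ 2 := by
    rw [norm_add_real, norm_smul, Real.norm_of_nonneg ht]
    have : 0 ≤ 2 * c * (t • w).re := by
      simp only [Quaternion.re_smul, smul_eq_mul]
      positivity
    nlinarith [sq_nonneg c]
  exact (pow_le_pow_iff_left₀ (by positivity) (norm_nonneg _) two_ne_zero).1 h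

theorem norm_upper (c t : ℝ) (w : ℍ[ℝ]) (hc : 0 ≤ c) (ht : 0 ≤ t) :
    ‖(c : ℍ[ℝ]) + t • w‖ ≤ c + t * ‖w‖ := by
  refine (norm_add_le _ _).trans ?_
  rw [norm_smul, Real.norm_of_nonneg ht, Quaternion.norm_coe, Real.norm_of_nonneg hc]

theorem herm_smul_smul {m : ℕ} (a b : ℝ) (x y : Fin m → ℍ[ℝ]) :
    herm (fun i => a • x i) (fun i => b • y i) = (a * b) • herm x y := by
  unfold herm
  rw [Finset.smul_sum]
  apply Finset.sum_congr rfl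
  intro i _
  rw [Quaternion.star_smul, smul_mul_smul_comm]

theorem nsq_smul {m : ℕ} (a : ℝ) (x : Fin m → ℍ[ℝ]) :
    nsq (fun i => a • x i) = a ^ 2 * nsq x := by
  unfold nsq
  rw [Finset.mul_sum]
  apply Finset.sum_congr rfl
  intro i _
  rw [norm_smul, mul_pow, Real.norm_eq_abs, sq_abs]


theorem coef_bounds {b b' : ℝ} (hb : 0 ≤ b) (hb1 : b ≤ 1 / 2) (hb' : 0 ≤ b') (hb1' : b' ≤ 1 / 2) :
    0 ≤ 1 - √(1 - b ^ 2) * √(1 - b' ^ 2) - b * b' ∧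
    1 - √(1 - b ^ 2) * √(1 - b' ^ 2) - b * b' ≤ (b - b') ^ 2 ∧
    3 / 4 ≤ √(1 - b ^ 2) * √(1 - b' ^ 2) := by
  have hA : √(1 - b ^ 2) ^ 2 = 1 - b ^ 2 := Real.sq_sqrt (by nlinarith)
  have hA' : √(1 - b' ^ 2) ^ 2 = 1 - b' ^ 2 := Real.sq_sqrt (by nlinarith)
  have h0 : 0 ≤ √(1 - b ^ 2) := Real.sqrt_nonneg _
  have h0' : 0 ≤ √(1 - b' ^ 2) := Real.sqrt_nonneg _
  set a := √(1 - b ^ 2)
  set a' := √(1 - b' ^ 2)
  have hP : 3 / 4 ≤ a * a' := by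
    have : (3 / 4 : ℝ) ^ 2 ≤ (a * a') ^ 2 := by
      rw [mul_pow, hA, hA']
      nlinarith [mul_nonneg (show (0:ℝ) ≤ 1 / 4 - b ^ 2 by nlinarith)
        (show (0:ℝ) ≤ 1 / 4 - b' ^ 2 by nlinarith)]
    exact (pow_le_pow_iff_left₀ (by norm_num) (by positivity) two_ne_zero).1 this
  have hS : 3 * (a - a') ^ 2 ≤ (b - b') ^ 2 := by
    have h1 : (a - a') ^ 2 * (a + a') ^ 2 = (b - b') ^ 2 * (b + b') ^ 2 := by
      have : (a - a') * (a + a') = -((b - b') * (b + b')) := by ring_nf; nlinarith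
      rw [← mul_pow, ← mul_pow, this]; ring
    have h2 : 3 ≤ (a + a') ^ 2 := by nlinarith
    have h3 : (b + b') ^ 2 ≤ 1 := by nlinarith
    nlinarith [sq_nonneg (a - a'), sq_nonneg (b - b')]
  refine ⟨?_, ?_, hP⟩
  · nlinarith [sq_nonneg (a - a'), sq_nonneg (b - b')]
  · nlinarith [sq_nonneg (a - a'), sq_nonneg (b - b')]

/-- The key identity for graph maps `x ↦ (√(1-b²) x, b)`. -/
theorem one_sub_herm_graph {n : ℕ} (x y : Fin n → ℍ[ℝ]) (a a' b b' : ℝ) :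
    1 - herm (Fin.snoc (fun i => a • x i) (b : ℍ[ℝ]) : Fin (n + 1) → ℍ[ℝ])
        (Fin.snoc (fun i => a' • y i) (b' : ℍ[ℝ]) : Fin (n + 1) → ℍ[ℝ]) =
      ((1 - a * a' - b * b' : ℝ) : ℍ[ℝ]) + (a * a') • (1 - herm x y) := by
  rw [herm_snoc, herm_smul_smul, smul_sub, Quaternion.star_coe]
  have : (a * a') • (1 : ℍ[ℝ]) = ((a * a' : ℝ) : ℍ[ℝ]) := by
    rw [← Quaternion.coe_mul_eq_smul, mul_one]
  rw [this]
  push_cast
  abel

/-- The function `φ(x) = δ * max (Re x_1) 0`. -/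
def phi {n : ℕ} (i0 : Fin n) (δ : ℝ) (x : Fin n → ℍ[ℝ]) : ℝ := δ * max (x i0).re 0

theorem norm_coord_le {n : ℕ} (x : Fin n → ℍ[ℝ]) (i0 : Fin n) : ‖x i0‖ ^ 2 ≤ nsq x :=
  Finset.single_le_sum (f := fun i => ‖x i‖ ^ 2) (fun i _ => by positivity) (Finset.mem_univ i0)

theorem phi_bounds {n : ℕ} (i0 : Fin n) {δ : ℝ} (hδ : 0 ≤ δ) (x : Fin n → ℍ[ℝ])
    (hx : nsq x ≤ 1) : 0 ≤ phi i0 δ x ∧ phi i0 δ x ≤ δ := by
  have h1 : ‖x i0‖ ≤ 1 := by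
    have := (norm_coord_le x i0).trans hx
    nlinarith [norm_nonneg (x i0)]
  have h2 := (abs_le.1 (abs_re_le (x i0))).2
  refine ⟨mul_nonneg hδ (le_max_right _ _), ?_⟩
  have : max (x i0).re 0 ≤ 1 := max_le (h2.trans h1) zero_le_one
  unfold phi
  nlinarith

theorem phi_lip {n : ℕ} (i0 : Fin n) {δ : ℝ} (x y : Fin n → ℍ[ℝ])
    (hx : nsq x ≤ 1) (hy : nsq y ≤ 1) :
    (phi i0 δ x - phi i0 δ y) ^ 2 ≤ δ ^ 2 * (2 * ‖1 - herm x y‖) := by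
  have h1 : |max (x i0).re 0 - max (y i0).re 0| ≤ ‖x i0 - y i0‖ := by
    refine (abs_max_sub_max_le_abs _ _ _).trans ?_
    have := abs_re_le (x i0 - y i0)
    simpa using this
  have h2 : (max (x i0).re 0 - max (y i0).re 0) ^ 2 ≤ ‖x i0 - y i0‖ ^ 2 := by
    rw [← sq_abs]; gcongr
  have h3 : ‖x i0 - y i0‖ ^ 2 ≤ nsq (fun i => x i - y i) :=
    norm_coord_le (fun i => x i - y i) i0
  have h4 := re_one_sub_herm x y hx hy
  have h5 : (1 - herm x y).re ≤ ‖1 - herm x y‖ := (abs_le.1 (abs_re_le _)).2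
  have h6 : (phi i0 δ x - phi i0 δ y) ^ 2 =
      δ ^ 2 * (max (x i0).re 0 - max (y i0).re 0) ^ 2 := by unfold phi; ring
  rw [h6]
  gcongr
  linarith

/-- Two-sided comparison of `|1 - <.,.>|` under the graph map. -/
theorem graph_compare {n : ℕ} (i0 : Fin n) {δ : ℝ} (hδ : 0 ≤ δ) (hδ1 : δ ≤ 1 / 2)
    (x y : Fin n → ℍ[ℝ]) (hx : nsq x ≤ 1) (hy : nsq y ≤ 1) :
    (3 / 4) * ‖1 - herm x y‖ ≤
      ‖1 - herm (Fin.snoc (fun i => √(1 - phi i0 δ x ^ 2) • x i) (phi i0 δ x : ℍ[ℝ]) :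
          Fin (n + 1) → ℍ[ℝ])
        (Fin.snoc (fun i => √(1 - phi i0 δ y ^ 2) • y i) (phi i0 δ y : ℍ[ℝ]))‖ ∧
    ‖1 - herm (Fin.snoc (fun i => √(1 - phi i0 δ x ^ 2) • x i) (phi i0 δ x : ℍ[ℝ]) :
          Fin (n + 1) → ℍ[ℝ])
        (Fin.snoc (fun i => √(1 - phi i0 δ y ^ 2) • y i) (phi i0 δ y : ℍ[ℝ]))‖ ≤
      2 * ‖1 - herm x y‖ := by
  obtain ⟨p0, p1⟩ := phi_bounds i0 hδ x hx
  obtain ⟨q0, q1⟩ := phi_bounds i0 hδ y hy
  obtain ⟨c0, c1, c2⟩ := coef_bounds p0 (p1.trans hδ1) q0 (q1.trans hδ1)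
  have hl := phi_lip i0 (δ := δ) x y hx hy
  have hre : 0 ≤ (1 - herm x y).re := by
    have := re_one_sub_herm x y hx hy
    have := nsq_nonneg (fun i => x i - y i)
    linarith
  have hN := norm_nonneg (1 - herm x y)
  rw [one_sub_herm_graph]
  have ha1 : √(1 - phi i0 δ x ^ 2) * √(1 - phi i0 δ y ^ 2) ≤ 1 := by
    have h1 : √(1 - phi i0 δ x ^ 2) ≤ 1 := Real.sqrt_le_one.2 (by nlinarith [sq_nonneg (phi i0 δ x)])
    have h2 : √(1 - phi i0 δ y ^ 2) ≤ 1 := Real.sqrt_le_one.2 (by nlinarith [sq_nonneg (phi i0 δ y)])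
    nlinarith [Real.sqrt_nonneg (1 - phi i0 δ x ^ 2), Real.sqrt_nonneg (1 - phi i0 δ y ^ 2)]
  constructor
  · refine le_trans ?_ (norm_lower _ _ _ c0 (by linarith) hre)
    gcongr
  · refine (norm_upper _ _ _ c0 (by linarith)).trans ?_
    have : δ ^ 2 * (2 * ‖1 - herm x y‖) ≤ 1 * ‖1 - herm x y‖ := by
      have : δ ^ 2 * 2 ≤ 1 := by nlinarith
      nlinarith
    nlinarith


/-! ### The exotic boundary map -/

/-- The boundary map `F ξ = (√(1 - φ(ξ)²) ξ, φ(ξ))`. -/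
def bmap {n : ℕ} (i0 : Fin n) (δ : ℝ) (hδ : 0 ≤ δ) (hδ1 : δ ≤ 1 / 2) (ξ : Bdry n) :
    Bdry (n + 1) :=
  ⟨Fin.snoc (fun i => √(1 - phi i0 δ ξ.1 ^ 2) • ξ.1 i) (phi i0 δ ξ.1 : ℍ[ℝ]), by
    obtain ⟨p0, p1⟩ := phi_bounds i0 hδ ξ.1 ξ.2.le
    rw [nsq_snoc, nsq_smul, ξ.2, Real.sq_sqrt (by nlinarith), Quaternion.norm_coe,
      Real.norm_eq_abs, sq_abs]
    ring⟩

theorem vdist_incl {n : ℕ} (x y : Bdry n) : vdist (incl x) (incl y) = vdist x y := by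
  unfold vdist incl
  rw [herm_snoc]
  simp

theorem bmap_lower {n : ℕ} (i0 : Fin n) (δ : ℝ) (hδ : 0 ≤ δ) (hδ1 : δ ≤ 1 / 2) (x y : Bdry n) :
    vdist x y ≤ 2 * vdist (bmap i0 δ hδ hδ1 x) (bmap i0 δ hδ hδ1 y) := by
  have h := (graph_compare i0 hδ hδ1 x.1 y.1 x.2.le y.2.le).1
  have h4 : (2 : ℝ) = √4 := by
    rw [show (4 : ℝ) = 2 ^ 2 by norm_num, Real.sqrt_sq (by norm_num)]
  unfold vdist bmap
  simp only
  rw [h4, ← Real.sqrt_mul (by norm_num)]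
  apply Real.sqrt_le_sqrt
  have := norm_nonneg (1 - herm x.1 y.1)
  nlinarith

theorem bmap_upper {n : ℕ} (i0 : Fin n) (δ : ℝ) (hδ : 0 ≤ δ) (hδ1 : δ ≤ 1 / 2) (x y : Bdry n) :
    vdist (bmap i0 δ hδ hδ1 x) (bmap i0 δ hδ hδ1 y) ≤ 2 * vdist x y := by
  have h := (graph_compare i0 hδ hδ1 x.1 y.1 x.2.le y.2.le).2
  have h4 : (2 : ℝ) = √4 := by
    rw [show (4 : ℝ) = 2 ^ 2 by norm_num, Real.sqrt_sq (by norm_num)]
  unfold vdist bmap
  simp only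
  nth_rw 2 [h4]
  rw [← Real.sqrt_mul (by norm_num)]
  apply Real.sqrt_le_sqrt
  have := norm_nonneg (1 - herm x.1 y.1)
  nlinarith

theorem eq_of_vdist_eq_zero {m : ℕ} {x y : Bdry m} (h : vdist x y = 0) : x = y := by
  have h1 : ‖1 - herm x.1 y.1‖ = 0 := by
    unfold vdist at h
    rw [Real.sqrt_eq_zero (by positivity)] at h
    linarith
  have h2 := re_one_sub_herm x.1 y.1 x.2.le y.2.le
  have h3 : (1 - herm x.1 y.1).re = 0 := by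
    rw [norm_eq_zero.1 h1]; rfl
  rw [h3] at h2
  have h4 : nsq (fun i => x.1 i - y.1 i) = 0 := le_antisymm (by linarith) (nsq_nonneg _)
  apply Subtype.ext
  funext i
  have h5 := norm_coord_le (fun i => x.1 i - y.1 i) i
  rw [h4] at h5
  have h6 : ‖x.1 i - y.1 i‖ = 0 := by
    have := norm_nonneg (x.1 i - y.1 i)
    nlinarith
  exact sub_eq_zero.1 (norm_eq_zero.1 h6)

theorem herm_self {m : ℕ} (x : Fin m → ℍ[ℝ]) : herm x x = ((nsq x : ℝ) : ℍ[ℝ]) := by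
  have h : ∀ i, x i * star (x i) = ((‖x i‖ ^ 2 : ℝ) : ℍ[ℝ]) := by
    intro i
    rw [Quaternion.self_mul_star, Quaternion.normSq_eq_norm_mul_self, pow_two]
  unfold herm nsq
  simp_rw [h]
  exact (map_sum (algebraMap ℝ ℍ[ℝ]) _ _).symm

theorem vdist_self {m : ℕ} (x : Bdry m) : vdist x x = 0 := by
  unfold vdist
  rw [herm_self, x.2]
  simp

theorem bmap_isQS {n : ℕ} (i0 : Fin n) (δ : ℝ) (hδ : 0 ≤ δ) (hδ1 : δ ≤ 1 / 2) :
    IsQSEmbedding (bmap i0 δ hδ hδ1) := by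
  constructor
  · intro x y hxy
    apply eq_of_vdist_eq_zero
    have h1 := bmap_lower i0 δ hδ hδ1 x y
    rw [hxy, vdist_self] at h1
    have h3 : 0 ≤ vdist x y := Real.sqrt_nonneg _
    linarith
  · refine ⟨Homeomorph.mulLeft₀ (4 : ℝ≥0) (by norm_num), ?_⟩
    intro x a b t h
    rw [vdist_incl, vdist_incl] at h
    have h1 := bmap_upper i0 δ hδ hδ1 x a
    have h2 := bmap_lower i0 δ hδ hδ1 x b
    simp only [Homeomorph.coe_mulLeft₀, NNReal.coe_mul, NNReal.coe_ofNat]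
    have ht : (0 : ℝ) ≤ t := t.2
    nlinarith [mul_le_mul_of_nonneg_left h2 ht]

theorem herm_smul_left {m : ℕ} (a : ℝ) (x y : Fin m → ℍ[ℝ]) :
    herm (fun i => a • x i) y = a • herm x y := by
  unfold herm
  rw [Finset.smul_sum]
  apply Finset.sum_congr rfl
  intro i _
  rw [smul_mul_assoc]

theorem bmap_close {n : ℕ} (i0 : Fin n) (δ : ℝ) (hδ : 0 ≤ δ) (hδ1 : δ ≤ 1 / 2) (x : Bdry n) :
    vdist (bmap i0 δ hδ hδ1 x) (incl x) ≤ δ := by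
  obtain ⟨p0, p1⟩ := phi_bounds i0 hδ x.1 x.2.le
  have hb1 : phi i0 δ x.1 ^ 2 ≤ 1 := by nlinarith
  have ha : √(1 - phi i0 δ x.1 ^ 2) ^ 2 = 1 - phi i0 δ x.1 ^ 2 := Real.sq_sqrt (by linarith)
  have ha0 := Real.sqrt_nonneg (1 - phi i0 δ x.1 ^ 2)
  have ha1 : √(1 - phi i0 δ x.1 ^ 2) ≤ 1 := Real.sqrt_le_one.2 (by nlinarith)
  have h : 1 - herm (bmap i0 δ hδ hδ1 x).1 (incl x).1 =
      ((1 - √(1 - phi i0 δ x.1 ^ 2) : ℝ) : ℍ[ℝ]) := by
    unfold bmap incl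
    simp only
    rw [herm_snoc, herm_smul_left, herm_self, x.2]
    simp [← Quaternion.coe_mul_eq_smul]
  unfold vdist
  rw [h, Quaternion.norm_coe, Real.norm_of_nonneg (by linarith)]
  apply Real.sqrt_le_iff.2
  refine ⟨hδ, ?_⟩
  nlinarith

/-! ### Isometries preserve the absolute cross ratio -/

/-- `|1 - <x,y>|`. -/
def Q {m : ℕ} (x y : Fin m → ℍ[ℝ]) : ℝ := ‖1 - herm x y‖

theorem ball_factor {m : ℕ} (x y : HBall m) :
    0 < √(1 - nsq x.1) * √(1 - nsq y.1) ∧ √(1 - nsq x.1) * √(1 - nsq y.1) ≤ Q x.1 y.1 := by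
  have hx := x.2
  have hy := y.2
  have hx0 := nsq_nonneg x.1
  have hy0 := nsq_nonneg y.1
  refine ⟨mul_pos (Real.sqrt_pos.2 (by linarith)) (Real.sqrt_pos.2 (by linarith)), ?_⟩
  rw [← Real.sqrt_mul (by linarith)]
  apply Real.sqrt_le_iff.2
  refine ⟨norm_nonneg _, ?_⟩
  have h1 : ‖herm x.1 y.1‖ ^ 2 ≤ nsq x.1 * nsq y.1 := herm_norm_sq_le _ _
  have h2 : 1 - ‖herm x.1 y.1‖ ≤ Q x.1 y.1 := by
    have := norm_sub_norm_le (1 : ℍ[ℝ]) (herm x.1 y.1)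
    rwa [norm_one] at this
  have h3 : nsq x.1 * nsq y.1 < 1 := by nlinarith
  have h4 : ‖herm x.1 y.1‖ < 1 := by
    by_contra hc
    push Not at hc
    nlinarith
  have h5 := norm_nonneg (herm x.1 y.1)
  have h6 : (1 - nsq x.1) * (1 - nsq y.1) ≤ (1 - ‖herm x.1 y.1‖) ^ 2 := by
    have hr : √(nsq x.1 * nsq y.1) ^ 2 = nsq x.1 * nsq y.1 := Real.sq_sqrt (by positivity)
    have hr0 := Real.sqrt_nonneg (nsq x.1 * nsq y.1)
    set r := √(nsq x.1 * nsq y.1)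
    have hhr : ‖herm x.1 y.1‖ ≤ r := by nlinarith
    have hr1 : r < 1 := by nlinarith
    have hr2 : 2 * r ≤ nsq x.1 + nsq y.1 := by
      nlinarith [sq_nonneg (nsq x.1 - nsq y.1)]
    nlinarith
  nlinarith

theorem Q_eq_of_hdist_eq {m : ℕ} {x y x' y' : HBall m} (h : hdist x' y' = hdist x y) :
    Q x'.1 y'.1 / (√(1 - nsq x'.1) * √(1 - nsq y'.1)) =
      Q x.1 y.1 / (√(1 - nsq x.1) * √(1 - nsq y.1)) := by
  obtain ⟨p, hp⟩ := ball_factor x y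
  obtain ⟨p', hp'⟩ := ball_factor x' y'
  have h1 : 1 ≤ Q x.1 y.1 / (√(1 - nsq x.1) * √(1 - nsq y.1)) := (one_le_div p).2 hp
  have h1' : 1 ≤ Q x'.1 y'.1 / (√(1 - nsq x'.1) * √(1 - nsq y'.1)) := (one_le_div p').2 hp'
  rw [← Real.cosh_arcosh h1, ← Real.cosh_arcosh h1']
  exact congrArg Real.cosh h

/-- A distance preserving map of the ball preserves the absolute cross ratio. -/
theorem cross_ratio {m : ℕ} (g : HBall m → HBall m) (hg : ∀ z w, hdist (g z) (g w) = hdist z w)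
    (z₁ z₂ z₃ z₄ : HBall m) :
    Q (g z₁).1 (g z₂).1 * Q (g z₃).1 (g z₄).1 * (Q z₁.1 z₃.1 * Q z₂.1 z₄.1) =
      Q z₁.1 z₂.1 * Q z₃.1 z₄.1 * (Q (g z₁).1 (g z₃).1 * Q (g z₂).1 (g z₄).1) := by
  have s : ∀ z : HBall m, 0 < √(1 - nsq z.1) := fun z => Real.sqrt_pos.2 (by have := z.2; linarith)
  have key : ∀ z w : HBall m, Q (g z).1 (g w).1 * (√(1 - nsq z.1) * √(1 - nsq w.1)) =
      Q z.1 w.1 * (√(1 - nsq (g z).1) * √(1 - nsq (g w).1)) := by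
    intro z w
    have h := Q_eq_of_hdist_eq (hg z w)
    have a1 := s z
    have a2 := s w
    have a3 := s (g z)
    have a4 := s (g w)
    rw [div_eq_div_iff (by positivity) (by positivity)] at h
    exact h
  have k12 := key z₁ z₂
  have k34 := key z₃ z₄
  have k13 := key z₁ z₃
  have k24 := key z₂ z₄
  have p1 := s z₁
  have p2 := s z₂
  have p3 := s z₃
  have p4 := s z₄
  have q1 := s (g z₁)
  have q2 := s (g z₂)
  have q3 := s (g z₃)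
  have q4 := s (g z₄)
  set a1 := √(1 - nsq z₁.1)
  set a2 := √(1 - nsq z₂.1)
  set a3 := √(1 - nsq z₃.1)
  set a4 := √(1 - nsq z₄.1)
  set b1 := √(1 - nsq (g z₁).1)
  set b2 := √(1 - nsq (g z₂).1)
  set b3 := √(1 - nsq (g z₃).1)
  set b4 := √(1 - nsq (g z₄).1)
  have hne : a1 * a2 * a3 * a4 * (b1 * b2 * b3 * b4) ≠ 0 := by positivity
  apply mul_right_cancel₀ hne
  calc _ = (Q (g z₁).1 (g z₂).1 * (a1 * a2)) * (Q (g z₃).1 (g z₄).1 * (a3 * a4)) *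
        ((Q z₁.1 z₃.1 * (b1 * b3)) * (Q z₂.1 z₄.1 * (b2 * b4))) := by ring
    _ = (Q z₁.1 z₂.1 * (b1 * b2)) * (Q z₃.1 z₄.1 * (b3 * b4)) *
        ((Q (g z₁).1 (g z₃).1 * (a1 * a3)) * (Q (g z₂).1 (g z₄).1 * (a2 * a4))) := by
        rw [k12, k34, ← k13, ← k24]
    _ = _ := by ring

/-- Points of the ball approaching a boundary point radially. -/
def radial {m : ℕ} (ξ : Bdry m) (k : ℕ) : HBall m :=
  ⟨fun i => (1 - 1 / ((k : ℝ) + 2)) • ξ.1 i, by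
    rw [nsq_smul, ξ.2, mul_one]
    have h1 : 0 < 1 / ((k : ℝ) + 2) := by positivity
    have h2 : 1 / ((k : ℝ) + 2) < 1 := by
      rw [div_lt_one (by positivity)]
      have : (0 : ℝ) ≤ k := Nat.cast_nonneg k
      linarith
    nlinarith⟩

theorem radial_tendsto {m : ℕ} (ξ : Bdry m) :
    Tendsto (fun k => (radial ξ k).1) atTop (𝓝 ξ.1) := by
  have h1 : Tendsto (fun k : ℕ => 1 / ((k : ℝ) + 2)) atTop (𝓝 0) := by
    have := tendsto_one_div_add_atTop_nhds_zero_nat (𝕜 := ℝ)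
    have h2 := (tendsto_add_atTop_iff_nat 1).2 this
    refine h2.congr ?_
    intro k
    push_cast
    ring_nf
  rw [tendsto_pi_nhds]
  intro i
  have h3 : Tendsto (fun k : ℕ => (1 - 1 / ((k : ℝ) + 2)) • ξ.1 i) atTop (𝓝 ((1 - 0 : ℝ) • ξ.1 i)) :=
    (tendsto_const_nhds.sub h1).smul_const _
  rw [sub_zero, one_smul] at h3
  exact h3

theorem continuous_Q {m : ℕ} : Continuous fun p : (Fin m → ℍ[ℝ]) × (Fin m → ℍ[ℝ]) => Q p.1 p.2 := by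
  unfold Q herm
  fun_prop

/-- If `f` is induced by a distance preserving map then `f` preserves the absolute cross ratio. -/
theorem cross_ratio_boundary {n : ℕ} (f : Bdry n → Bdry (n + 1)) (g : HBall (n + 1) → HBall (n + 1))
    (hg : ∀ z w, hdist (g z) (g w) = hdist z w) (hf : InducedBy f g) (ξ₁ ξ₂ ξ₃ ξ₄ : Bdry n) :
    Q (f ξ₁).1 (f ξ₂).1 * Q (f ξ₃).1 (f ξ₄).1 * (Q (incl ξ₁).1 (incl ξ₃).1 * Q (incl ξ₂).1 (incl ξ₄).1) =
      Q (incl ξ₁).1 (incl ξ₂).1 * Q (incl ξ₃).1 (incl ξ₄).1 *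
        (Q (f ξ₁).1 (f ξ₃).1 * Q (f ξ₂).1 (f ξ₄).1) := by
  have hz : ∀ ξ : Bdry n, Tendsto (fun k => (radial (incl ξ) k).1) atTop (𝓝 (incl ξ).1) :=
    fun ξ => radial_tendsto _
  have hgz : ∀ ξ : Bdry n, Tendsto (fun k => (g (radial (incl ξ) k)).1) atTop (𝓝 (f ξ).1) := by
    intro ξ
    have h1 : Tendsto (fun k => radial (incl ξ) k) atTop
        (comap (fun z : HBall (n + 1) => z.1) (𝓝 (incl ξ).1)) := by
      rw [tendsto_comap_iff]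
      exact hz ξ
    exact (hf ξ).comp h1
  have hQ : ∀ (u v : ℕ → HBall (n + 1)) (a b : Fin (n + 1) → ℍ[ℝ]),
      Tendsto (fun k => (u k).1) atTop (𝓝 a) → Tendsto (fun k => (v k).1) atTop (𝓝 b) →
      Tendsto (fun k => Q (u k).1 (v k).1) atTop (𝓝 (Q a b)) := by
    intro u v a b hu hv
    have h1 : Tendsto (fun p : (Fin (n + 1) → ℍ[ℝ]) × (Fin (n + 1) → ℍ[ℝ]) => Q p.1 p.2)
        (𝓝 (a, b)) (𝓝 (Q a b)) := continuous_Q.tendsto (a, b)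
    have h2 : Tendsto (fun k => ((u k).1, (v k).1)) atTop (𝓝 (a, b)) := hu.prodMk_nhds hv
    have h3 := h1.comp h2
    simp only [Function.comp_def] at h3
    exact h3
  have hL := ((hQ _ _ _ _ (hgz ξ₁) (hgz ξ₂)).mul (hQ _ _ _ _ (hgz ξ₃) (hgz ξ₄))).mul
    ((hQ _ _ _ _ (hz ξ₁) (hz ξ₃)).mul (hQ _ _ _ _ (hz ξ₂) (hz ξ₄)))
  have hR := ((hQ _ _ _ _ (hz ξ₁) (hz ξ₂)).mul (hQ _ _ _ _ (hz ξ₃) (hz ξ₄))).mul
    ((hQ _ _ _ _ (hgz ξ₁) (hgz ξ₃)).mul (hQ _ _ _ _ (hgz ξ₂) (hgz ξ₄)))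
  refine tendsto_nhds_unique hL (hR.congr ?_)
  intro k
  exact (cross_ratio g hg _ _ _ _).symm

/-! ### Justification of the visual metric (not used in the main theorem) -/

/-- The centre of the ball model. -/
def origin (m : ℕ) : HBall m := ⟨fun _ => 0, by simp [nsq]⟩

theorem exp_hdist {m : ℕ} (z w : HBall m) :
    Real.exp (hdist z w) = (Q z.1 w.1 + √(Q z.1 w.1 ^ 2 - (1 - nsq z.1) * (1 - nsq w.1))) /
      (√(1 - nsq z.1) * √(1 - nsq w.1)) := by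
  obtain ⟨p, hp⟩ := ball_factor z w
  have hz := z.2
  have hw := w.2
  have h1 : 1 ≤ Q z.1 w.1 / (√(1 - nsq z.1) * √(1 - nsq w.1)) := (one_le_div p).2 hp
  have e : Real.exp (hdist z w) = Q z.1 w.1 / (√(1 - nsq z.1) * √(1 - nsq w.1)) +
      √((Q z.1 w.1 / (√(1 - nsq z.1) * √(1 - nsq w.1))) ^ 2 - 1) := Real.exp_arcosh h1
  rw [e, add_div]
  congr 1
  have h2 : (Q z.1 w.1 / (√(1 - nsq z.1) * √(1 - nsq w.1))) ^ 2 - 1 =
      (Q z.1 w.1 ^ 2 - (1 - nsq z.1) * (1 - nsq w.1)) / (√(1 - nsq z.1) * √(1 - nsq w.1)) ^ 2 := by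
    have hne : (√(1 - nsq z.1) * √(1 - nsq w.1)) ^ 2 ≠ 0 := by positivity
    rw [div_pow, eq_div_iff hne, sub_mul, div_mul_cancel₀ _ hne, mul_pow,
      Real.sq_sqrt (by linarith), Real.sq_sqrt (by linarith)]
    ring
  rw [h2, Real.sqrt_div' _ (by positivity), Real.sqrt_sq p.le]

theorem Q_origin {m : ℕ} (z : HBall m) : Q (origin m).1 z.1 = 1 := by
  unfold Q origin herm
  simp

theorem gromov_aux {m : ℕ} (z w : HBall m) :
    Real.exp (-((hdist (origin m) z + hdist (origin m) w - hdist z w) / 2)) =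
      √((Q z.1 w.1 + √(Q z.1 w.1 ^ 2 - (1 - nsq z.1) * (1 - nsq w.1))) /
        ((1 + √(nsq z.1)) * (1 + √(nsq w.1)))) := by
  have h0 : nsq (origin m).1 = 0 := by simp [nsq, origin]
  have e1 : Real.exp (hdist (origin m) z) = (1 + √(nsq z.1)) / √(1 - nsq z.1) := by
    rw [exp_hdist, Q_origin, h0]
    simp
  have e2 : Real.exp (hdist (origin m) w) = (1 + √(nsq w.1)) / √(1 - nsq w.1) := by
    rw [exp_hdist, Q_origin, h0]
    simp
  have e3 := exp_hdist z w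
  obtain ⟨p, -⟩ := ball_factor z w
  have pz : 0 < √(1 - nsq z.1) := Real.sqrt_pos.2 (by have := z.2; linarith)
  have pw : 0 < √(1 - nsq w.1) := Real.sqrt_pos.2 (by have := w.2; linarith)
  have q1 : 0 < 1 + √(nsq z.1) := by positivity
  have q2 : 0 < 1 + √(nsq w.1) := by positivity
  have e4 : Real.exp (hdist z w - hdist (origin m) z - hdist (origin m) w) =
      (Q z.1 w.1 + √(Q z.1 w.1 ^ 2 - (1 - nsq z.1) * (1 - nsq w.1))) /
        ((1 + √(nsq z.1)) * (1 + √(nsq w.1))) := by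
    rw [Real.exp_sub, Real.exp_sub, e1, e2, e3]
    field_simp
  rw [← e4, Real.sqrt_eq_rpow, ← Real.exp_mul]
  congr 1
  ring

/-- The visual metric is the limit of exp (-(z|w)_0), (z|w)_0 being the Gromov product of
`ℍH^m` with respect to the centre of the ball, as `z → ξ` and `w → η`. -/
theorem gromov_product_limit {m : ℕ} (ξ η : Bdry m) :
    Tendsto (fun p : HBall m × HBall m =>
        Real.exp (-((hdist (origin m) p.1 + hdist (origin m) p.2 - hdist p.1 p.2) / 2)))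
      (comap (fun p : HBall m × HBall m => (p.1.1, p.2.1)) (𝓝 (ξ.1, η.1))) (𝓝 (vdist ξ η)) := by
  have hc : Continuous fun p : (Fin m → ℍ[ℝ]) × (Fin m → ℍ[ℝ]) =>
      √((Q p.1 p.2 + √(Q p.1 p.2 ^ 2 - (1 - nsq p.1) * (1 - nsq p.2))) /
        ((1 + √(nsq p.1)) * (1 + √(nsq p.2)))) := by
    have h1 := continuous_Q (m := m)
    have h2 : Continuous (nsq (m := m)) := by unfold nsq; fun_prop
    have h3 : Continuous fun p : (Fin m → ℍ[ℝ]) × (Fin m → ℍ[ℝ]) => nsq p.1 :=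
      h2.comp continuous_fst
    have h4 : Continuous fun p : (Fin m → ℍ[ℝ]) × (Fin m → ℍ[ℝ]) => nsq p.2 :=
      h2.comp continuous_snd
    apply Real.continuous_sqrt.comp
    apply Continuous.div
    · fun_prop
    · fun_prop
    · intro p
      positivity
  have hlim := hc.tendsto (ξ.1, η.1)
  have hval : √((Q ξ.1 η.1 + √(Q ξ.1 η.1 ^ 2 - (1 - nsq ξ.1) * (1 - nsq η.1))) /
        ((1 + √(nsq ξ.1)) * (1 + √(nsq η.1)))) = vdist ξ η := by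
    have hQ : 0 ≤ Q ξ.1 η.1 := norm_nonneg _
    rw [ξ.2, η.2]
    simp only [sub_self, mul_zero, sub_zero, Real.sqrt_sq hQ, Real.sqrt_one]
    unfold vdist
    congr 1
    unfold Q
    ring
  simp only [hval] at hlim
  have := hlim.comp (tendsto_comap (f := fun p : HBall m × HBall m => (p.1.1, p.2.1)))
  refine this.congr ?_
  intro p
  simp only [Function.comp_def]
  exact (gromov_aux p.1 p.2).symm

/-! ### Four points on which the cross ratio changes -/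

/-- The point `q e_1` of the sphere, `q` a unit quaternion. -/
def pt {n : ℕ} (i0 : Fin n) (q : ℍ[ℝ]) (hq : ‖q‖ = 1) : Bdry n :=
  ⟨fun i => if i = i0 then q else 0, by
    unfold nsq
    rw [Finset.sum_eq_single i0]
    · simp [hq]
    · intro b _ hb
      simp [hb]
    · simp⟩

theorem herm_pt {n : ℕ} (i0 : Fin n) (p q : ℍ[ℝ]) :
    herm (fun i : Fin n => if i = i0 then p else 0) (fun i => if i = i0 then q else 0) =
      p * star q := by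
  unfold herm
  rw [Finset.sum_eq_single i0]
  · simp
  · intro b _ hb
    simp [hb]
  · simp

theorem Q_incl {n : ℕ} (i0 : Fin n) (p q : ℍ[ℝ]) (hp : ‖p‖ = 1) (hq : ‖q‖ = 1) :
    Q (incl (pt i0 p hp)).1 (incl (pt i0 q hq)).1 = ‖1 - p * star q‖ := by
  unfold Q incl pt
  simp only
  rw [herm_snoc, herm_pt]
  simp

theorem Q_bmap {n : ℕ} (i0 : Fin n) (δ : ℝ) (hδ : 0 ≤ δ) (hδ1 : δ ≤ 1 / 2)
    (p q : ℍ[ℝ]) (hp : ‖p‖ = 1) (hq : ‖q‖ = 1) :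
    Q (bmap i0 δ hδ hδ1 (pt i0 p hp)).1 (bmap i0 δ hδ hδ1 (pt i0 q hq)).1 =
      ‖((1 - √(1 - (δ * max p.re 0) ^ 2) * √(1 - (δ * max q.re 0) ^ 2) -
        (δ * max p.re 0) * (δ * max q.re 0) : ℝ) : ℍ[ℝ]) +
        (√(1 - (δ * max p.re 0) ^ 2) * √(1 - (δ * max q.re 0) ^ 2)) • (1 - p * star q)‖ := by
  unfold Q bmap pt phi
  simp only
  rw [one_sub_herm_graph, herm_pt]
  simp

theorem Q_bmap_zero {n : ℕ} (i0 : Fin n) (δ : ℝ) (hδ : 0 ≤ δ) (hδ1 : δ ≤ 1 / 2)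
    (p q : ℍ[ℝ]) (hp : ‖p‖ = 1) (hq : ‖q‖ = 1) (hp0 : p.re ≤ 0) (hq0 : q.re ≤ 0) :
    Q (bmap i0 δ hδ hδ1 (pt i0 p hp)).1 (bmap i0 δ hδ hδ1 (pt i0 q hq)).1 =
      ‖1 - p * star q‖ := by
  rw [Q_bmap, max_eq_right hp0, max_eq_right hq0]
  simp

theorem Q_bmap_one {n : ℕ} (i0 : Fin n) (δ : ℝ) (hδ : 0 ≤ δ) (hδ1 : δ ≤ 1 / 2)
    (p : ℍ[ℝ]) (hp : ‖p‖ = 1) (h1 : ‖(1 : ℍ[ℝ])‖ = 1) (hp0 : p.re ≤ 0) :
    Q (bmap i0 δ hδ hδ1 (pt i0 p hp)).1 (bmap i0 δ hδ hδ1 (pt i0 1 h1)).1 =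
      ‖((1 - √(1 - δ ^ 2) : ℝ) : ℍ[ℝ]) + √(1 - δ ^ 2) • (1 - p)‖ := by
  rw [Q_bmap, max_eq_right hp0]
  simp

theorem bmap_not_induced {n : ℕ} (i0 : Fin n) (δ : ℝ) (hδ : 0 < δ) (hδ1 : δ ≤ 1 / 2)
    (g : HBall (n + 1) → HBall (n + 1)) (hg : IsIsometry g) :
    ¬ InducedBy (bmap i0 δ hδ.le hδ1) g := by
  intro h
  obtain ⟨I, i1, i2, i3, i4⟩ : ∃ I : ℍ[ℝ], I.re = 0 ∧ I.imI = 1 ∧ I.imJ = 0 ∧ I.imK = 0 :=
    ⟨⟨0, 1, 0, 0⟩, rfl, rfl, rfl, rfl⟩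
  have nI : ‖I‖ = 1 := by
    have : ‖I‖ ^ 2 = 1 := by rw [norm_sq_q]; simp [i1, i2, i3, i4]
    nlinarith [norm_nonneg I]
  have nI' : ‖-I‖ = 1 := by rw [norm_neg, nI]
  have n1 : ‖(1 : ℍ[ℝ])‖ = 1 := norm_one
  have n1' : ‖(-1 : ℍ[ℝ])‖ = 1 := by rw [norm_neg, norm_one]
  have rI : I.re ≤ 0 := i1.le
  have rI' : (-I).re ≤ 0 := by simp [i1]
  have r1' : (-1 : ℍ[ℝ]).re ≤ 0 := by simp
  have H := cross_ratio_boundary _ g hg.2 h (pt i0 (-I) nI') (pt i0 (-1) n1') (pt i0 I nI)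
    (pt i0 1 n1)
  rw [Q_incl, Q_incl, Q_incl, Q_incl, Q_bmap_zero i0 δ hδ.le hδ1 _ _ nI' n1' rI' r1',
    Q_bmap_zero i0 δ hδ.le hδ1 _ _ nI' nI rI' rI, Q_bmap_one i0 δ hδ.le hδ1 _ nI n1 rI,
    Q_bmap_one i0 δ hδ.le hδ1 _ n1' n1 r1'] at H
  have hδ2 : δ ^ 2 ≤ 1 / 4 := by nlinarith
  have ha : √(1 - δ ^ 2) ^ 2 = 1 - δ ^ 2 := Real.sq_sqrt (by linarith)
  have ha0 := Real.sqrt_nonneg (1 - δ ^ 2)
  set a := √(1 - δ ^ 2)
  have e12 : ‖1 - -I * star (-1)‖ ^ 2 = 2 := by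
    rw [norm_sq_q]; simp [i1, i2, i3, i4]; norm_num
  have e34 : ‖1 - I * star 1‖ ^ 2 = 2 := by
    rw [norm_sq_q]; simp [i1, i2, i3, i4]; norm_num
  have e13 : ‖1 - -I * star I‖ ^ 2 = 4 := by
    rw [norm_sq_q]; simp [i1, i2, i3, i4]; norm_num
  have e24 : ‖(1 : ℍ[ℝ]) - -1 * star 1‖ ^ 2 = 4 := by
    rw [norm_sq_q]; simp; norm_num
  have f34 : ‖((1 - a : ℝ) : ℍ[ℝ]) + a • (1 - I)‖ ^ 2 = 1 + a ^ 2 := by
    rw [norm_sq_q]; simp [i1, i2, i3, i4]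
  have f24 : ‖((1 - a : ℝ) : ℍ[ℝ]) + a • (1 - -1)‖ ^ 2 = (1 + a) ^ 2 := by
    rw [norm_sq_q]; simp
  have H2 := congrArg (fun t : ℝ => t ^ 2) H
  simp only [mul_pow] at H2
  rw [e12, e34, e13, e24, f34, f24] at H2
  have h3 : (1 - a) ^ 2 = 0 := by nlinarith
  have h4 : a = 1 := by
    have := pow_eq_zero_iff (two_ne_zero) |>.1 h3
    linarith
  rw [h4] at ha
  nlinarith

/-- Sanity check: the inclusion itself is a quasisymmetric embedding. -/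
theorem incl_isQS {n : ℕ} : IsQSEmbedding (incl (n := n)) := by
  constructor
  · intro x y hxy
    apply eq_of_vdist_eq_zero
    rw [← vdist_incl, hxy, vdist_self]
  · exact ⟨Homeomorph.refl _, fun x a b t h => h⟩

/-- Sanity check: the inclusion is induced by the identity isometry. -/
theorem incl_induced {n : ℕ} :
    IsIsometry (id : HBall (n + 1) → HBall (n + 1)) ∧ InducedBy (incl (n := n)) id :=
  ⟨⟨Function.bijective_id, fun _ _ => rfl⟩, fun _ => tendsto_comap⟩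

/-- **Main theorem.** For every `n ≥ 2`, the ideal boundary `X` of a totally geodesic
quaternionic hyperbolic hyperplane `ℍH^n` of `ℍH^{n+1}` is not locally quasisymmetrically rigid in
the ideal boundary `Y` of `ℍH^{n+1}`. -/
theorem result : ∀ n : ℕ, 2 ≤ n → ¬ LocallyRigid n := by
  rintro n hn ⟨ε, hε, H⟩
  have hδ : 0 < min (ε / 2) (1 / 2) := by positivity
  have hδ1 : min (ε / 2) (1 / 2) ≤ 1 / 2 := min_le_right _ _
  obtain ⟨g, hg, hgf⟩ := H (bmap ⟨0, by omega⟩ _ hδ.le hδ1) (bmap_isQS _ _ _ _) (by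
    have h1 : (⨆ x : Bdry n, vdist (bmap ⟨0, by omega⟩ _ hδ.le hδ1 x) (incl x)) ≤
        min (ε / 2) (1 / 2) := Real.iSup_le (fun x => bmap_close _ _ _ _ x) hδ.le
    have h2 : min (ε / 2) (1 / 2) ≤ ε / 2 := min_le_left _ _
    linarith)
  exact bmap_not_induced _ _ hδ hδ1 g hg hgf

end Pool.Agent.Results.MP_885f98_gt.NotLocallyRigid
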